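import Pool.Agent.N206.CG.Stm2

/-!
Project CG (MP_216434_al), leaf OUT: finiteness modulo inner automorphisms of the group of
automorphisms preserving `Hs`.
-/

set_option autoImplicit false

namespace Pool.Agent.N395.CG

open Classical Pool.Agent.N206.CG

theorem t_CONTR {L : Loc} (S : Sys L) (h1 : S_C1 S) (h2 : S_C2 S) (h3 : S_C3 S) : S_CONTR S :=
  fun α hα => h3 α hα (h2 α hα (h1 α hα))

variable {L : Loc} (S : Sys L)

/-- the sequence of iterated sections along the base letters -/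
noncomputable def orb (α : MulAut (S.D 0)) : ∀ m, MulAut (S.D m)
  | 0 => α
  | m + 1 => S.asc m (orb α m) (L.z m)

theorem orb_isOrb (α : MulAut (S.D 0)) : IsOrb S (orb S α) := fun _ => rfl

/-- automorphisms preserving `Hs` -/
def HInv (α : MulAut (S.D 0)) : Prop := ∀ h, h ∈ S.Hs ↔ α h ∈ S.Hs

/-- the class of an automorphism -/
def Cl (α : MulAut (S.D 0)) (p : (∀ n, Equiv.Perm (L.E n)) × Equiv.Perm (L.E 0)) : Prop :=
  S.sg 0 α = p.2 ∧ ∃ (t : ∀ n, Equiv.Perm (L.E n)) (b : L.B),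
    (∀ m, ∀ x ∈ L.X m, S.sg (m + 1) (S.asc m (orb S α m) x) = t (m + 1)) ∧
    (∀ m, ∃ g ∈ L.P (m + 1), t (m + 1) = g * S.sg (m + 1) (orb S α (m + 1))) ∧
    ∀ n, 1 ≤ n → t n = L.rho n b * p.1 n

theorem exists_cl (h1 : S_G1 S) (h2 : S_G2 S) (F0 : Set (∀ n, Equiv.Perm (L.E n)))
    (hF0 : ∀ t : ∀ n, Equiv.Perm (L.E n),
      (∀ n, 1 ≤ n → ∃ g ∈ L.P n, t n = g ∨ t n = g * L.J n) →
      (∃ f : L.B →* L.B, ∀ n, 1 ≤ n → ∀ b, L.rho n (f b) = t n * L.rho n b * (t n)⁻¹) →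
      ∃ u ∈ F0, ∃ b, ∀ n, 1 ≤ n → t n = L.rho n b * u n)
    (α : MulAut (S.D 0)) (hα : HInv S α) :
    ∃ p ∈ F0 ×ˢ ({1, L.J 0} : Set (Equiv.Perm (L.E 0))), Cl S α p := by
  obtain ⟨t, ht1, ht2, f, hf⟩ := h2 (orb S α) (orb_isOrb S α) hα
  have hg := h1 (orb S α) (orb_isOrb S α) hα
  obtain ⟨u, hu, b, hb⟩ := hF0 t (by
    intro n hn
    obtain ⟨m, rfl⟩ : ∃ m, n = m + 1 := ⟨n - 1, by omega⟩
    obtain ⟨g, hgP, hgt⟩ := ht2 m
    rcases (hg (m + 1)).1 with h | h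
    · exact ⟨g, hgP, Or.inl (by rw [hgt, h, mul_one])⟩
    · exact ⟨g, hgP, Or.inr (by rw [hgt, h])⟩) ⟨f, by
    intro n hn
    obtain ⟨m, rfl⟩ : ∃ m, n = m + 1 := ⟨n - 1, by omega⟩
    exact hf m⟩
  refine ⟨(u, S.sg 0 α), ⟨hu, ?_⟩, rfl, t, b, ht1, ht2, hb⟩
  rcases (hg 0).1 with h | h
  · exact Or.inl h
  · exact Or.inr h

theorem J_inv (n : ℕ) : (L.J n)⁻¹ = L.J n := inv_eq_of_mul_eq_one_left (L.J_sq n)

theorem sg_z (h1 : S_G1 S) (α : MulAut (S.D 0)) (hα : HInv S α) (m : ℕ) :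
    S.sg m (orb S α m) (L.z m) = L.z m := by
  rcases (h1 (orb S α) (orb_isOrb S α) hα m).1 with h | h
  · rw [h]; rfl
  · rw [h]; exact L.J_z m

theorem sg_X (h1 : S_G1 S) (α : MulAut (S.D 0)) (hα : HInv S α) (m : ℕ) (x : L.E m)
    (hx : x ∈ L.X m) : (S.sg m (orb S α m))⁻¹ x ∈ L.X m := by
  rcases (h1 (orb S α) (orb_isOrb S α) hα m).1 with h | h
  · rw [h]; simpa using hx
  · rw [h, J_inv]; exact (L.J_X m x).1 hx

theorem same_class (hA : RulesA S) (h1 : S_G1 S) (h3 : S_CONTR S)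
    (α α' : MulAut (S.D 0)) (hα : HInv S α) (hα' : HInv S α')
    (p : (∀ n, Equiv.Perm (L.E n)) × Equiv.Perm (L.E 0)) (hc : Cl S α p) (hc' : Cl S α' p) :
    ∃ d, α' = MulAut.conj d * α := by
  obtain ⟨h0, t, b, ht1, ht2, ht3⟩ := hc
  obtain ⟨h0', t', b', ht1', ht2', ht3'⟩ := hc'
  have hg := h1 (orb S α) (orb_isOrb S α) hα
  have hg' := h1 (orb S α') (orb_isOrb S α') hα'
  have hz := sg_z S h1 α hα
  have hX := sg_X S h1 α hα
  -- the quotient of the two sequences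
  set γ : ∀ m, MulAut (S.D m) := fun m => orb S α' m * (orb S α m)⁻¹ with hγ
  -- sections of the quotient
  have hasc : ∀ m x, S.asc m (γ m) x = S.asc m (orb S α' m) ((S.sg m (orb S α m))⁻¹ x) *
      (S.asc m (orb S α m) ((S.sg m (orb S α m))⁻¹ x))⁻¹ := by
    intro m x
    rw [hγ]
    simp only
    rw [hA.asc_mul, hA.sg_inv]
    have := hA.asc_inv m (orb S α m) ((S.sg m (orb S α m))⁻¹ x)
    have hx : S.sg m (orb S α m) ((S.sg m (orb S α m))⁻¹ x) = x := by simp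
    rw [hx] at this
    rw [this]
  have hzinv : ∀ m, (S.sg m (orb S α m))⁻¹ (L.z m) = L.z m := by
    intro m
    rw [Equiv.Perm.inv_eq_iff_eq]
    exact (hz m).symm
  have hγorb : ∀ m, γ (m + 1) = S.asc m (γ m) (L.z m) := by
    intro m
    rw [hasc m (L.z m), hzinv m]
    rfl
  -- quotient of the `t`
  have hq : ∀ n, 1 ≤ n → t' n * (t n)⁻¹ = L.rho n (b' * b⁻¹) := by
    intro n hn
    rw [ht3 n hn, ht3' n hn, map_mul, map_inv]
    group
  have hsgγ : ∀ m, S.sg m (γ m) = 1 := by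
    intro m
    have e : S.sg m (γ m) = S.sg m (orb S α' m) * (S.sg m (orb S α m))⁻¹ := by
      rw [hγ]; simp only; rw [hA.sg_mul, hA.sg_inv]
    rw [e]
    rcases m with _ | m
    · have e1 : S.sg 0 (orb S α 0) = p.2 := h0
      have e2 : S.sg 0 (orb S α' 0) = p.2 := h0'
      rw [e1, e2, mul_inv_cancel]
    · obtain ⟨g, hgP, hgt⟩ := ht2 m
      obtain ⟨g', hgP', hgt'⟩ := ht2' m
      have hmem : S.sg (m + 1) (orb S α' (m + 1)) * (S.sg (m + 1) (orb S α (m + 1)))⁻¹ ∈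
          L.P (m + 1) := by
        have e3 : S.sg (m + 1) (orb S α' (m + 1)) * (S.sg (m + 1) (orb S α (m + 1)))⁻¹ =
            g'⁻¹ * (t' (m + 1) * (t (m + 1))⁻¹) * g := by
          rw [hgt, hgt']; group
        rw [e3, hq (m + 1) (by omega)]
        refine (L.P (m + 1)).mul_mem ((L.P (m + 1)).mul_mem ((L.P (m + 1)).inv_mem hgP') ?_) hgP
        rw [← L.rho_range (m + 1)]
        exact ⟨_, rfl⟩
      rcases (hg (m + 1)).1 with h | h <;> rcases (hg' (m + 1)).1 with h' | h' <;>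
        rw [h, h'] at hmem ⊢
      · simp
      · exfalso
        rw [inv_one, mul_one] at hmem
        exact L.J_not (m + 1) hmem
      · exfalso
        rw [J_inv, one_mul] at hmem
        exact L.J_not (m + 1) hmem
      · simp
  have hsgX : ∀ m, ∀ x ∈ L.X m, S.sg (m + 1) (S.asc m (γ m) x) = L.rho (m + 1) (b' * b⁻¹) := by
    intro m x hx
    rw [hasc m x, hA.sg_mul, hA.sg_inv, ht1 m _ (hX m x hx), ht1' m _ (hX m x hx),
      hq (m + 1) (by omega)]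
  -- the normalised sequence
  set b0 : L.B := b' * b⁻¹ with hb0
  set δ : ∀ m, MulAut (S.D m) := fun m => MulAut.conj (S.sp m b0⁻¹) * γ m with hδ
  have hascδ : ∀ m x, S.asc m (δ m) x = MulAut.conj (S.sec m (S.sp m b0⁻¹) x) * S.asc m (γ m) x := by
    intro m x
    rw [hδ]
    simp only
    rw [hA.asc_mul, hsgγ m, Equiv.Perm.one_apply, hA.asc_conj]
  have hnor : IsNor S δ := by
    refine ⟨?_, ?_, ?_⟩
    · intro m
      rw [hascδ m (L.z m), S.sec_sp_z, ← hγorb m]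
    · intro m
      rw [hδ]
      simp only
      rw [hA.sg_mul, hA.sg_conj, S.root_sp, hsgγ m, one_mul]
    · intro m x hx
      rw [hascδ m x, hA.sg_mul, hA.sg_conj, S.sec_sp_X m _ x hx, S.root_rt, hsgX m x hx,
        ← map_mul, inv_mul_cancel, map_one]
  obtain ⟨d, hd⟩ := h3 δ hnor
  refine ⟨S.sp 0 b0 * d, ?_⟩
  have e1 : MulAut.conj (S.sp 0 b0⁻¹) * (α' * α⁻¹) = MulAut.conj d := hd
  have e2 : α' * α⁻¹ = MulAut.conj (S.sp 0 b0) * MulAut.conj d := by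
    rw [← e1, ← mul_assoc, ← map_mul, ← map_mul, mul_inv_cancel, map_one, map_one, one_mul]
  rw [map_mul, ← e2]
  group

theorem t_OUT {L : Loc} (S : Sys L) (hA : RulesA S) (hB : RulesB S) (h1 : S_G1 S) (h2 : S_G2 S)
    (h3 : S_CONTR S) : S_OUT S := by
  obtain ⟨F0, hfin, hF0⟩ := L.fin
  set c : (∀ n, Equiv.Perm (L.E n)) × Equiv.Perm (L.E 0) → MulAut (S.D 0) := fun p =>
    if h : ∃ α, HInv S α ∧ Cl S α p then h.choose else 1 with hc
  refine ⟨c '' (F0 ×ˢ ({1, L.J 0} : Set (Equiv.Perm (L.E 0)))),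
    (hfin.prod (Set.toFinite _)).image c, ?_, ?_⟩
  · rintro u ⟨p, _, rfl⟩
    rw [hc]
    simp only
    by_cases h : ∃ α, HInv S α ∧ Cl S α p
    · rw [dif_pos h]
      exact h.choose_spec.1
    · rw [dif_neg h]
      intro x
      rw [MulAut.one_apply]
  · intro α' hα'
    obtain ⟨p, hp, hcl⟩ := exists_cl S h1 h2 F0 hF0 α' hα'
    have h : ∃ α, HInv S α ∧ Cl S α p := ⟨α', hα', hcl⟩
    refine ⟨c p, ⟨p, hp, rfl⟩, ?_⟩
    have e : c p = h.choose := by rw [hc]; simp only; rw [dif_pos h]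
    rw [e]
    exact same_class S hA h1 h3 _ _ h.choose_spec.1 hα' p h.choose_spec.2 hcl

end Pool.Agent.N395.CG
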